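import Pool.Agent.Run7.h292.BL.Defs

/-!
# DIG2: pairs of opposite arcs, with the gain from non-adjacent pairs

This is the file `Pool.Agent.Run7.h646.BL.DIG` of helper646 with a stronger last inequality.
-/

set_option autoImplicit false

namespace Pool.Agent.Run7.h292.BL.D2

open Finset Classical
open Pool.Agent.Results.MP_2634a8_co.Fractional (DiCycle FracPacking)
open Pool.Agent.Run7.h292.BL

/-- a cycle of a sub-digraph -/
def lift {V : Type} {A B : V → V → Prop} (hAB : ∀ u v, A u v → B u v) (C : DiCycle A) :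
    DiCycle B := ⟨C.len, C.vert, C.inj, fun i => hAB _ _ (C.adj i)⟩

/-- a pair of opposite arcs as a cycle of length two -/
def digon {V : Type} {A : V → V → Prop} (u v : V) (huv : u ≠ v) (h1 : A u v) (h2 : A v u) :
    DiCycle A where
  len := 0
  vert := ![u, v]
  inj := by
    intro i j h
    fin_cases i <;> fin_cases j <;> simp_all
  adj := by
    intro i
    fin_cases i
    · exact h1
    · exact h2

lemma digon_uses {V : Type} {A : V → V → Prop} (u v : V) (huv : u ≠ v) (h1 : A u v) (h2 : A v u)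
    (a b : V) (h : (digon u v huv h1 h2).Uses a b) : (u = a ∧ v = b) ∨ (v = a ∧ u = b) := by
  obtain ⟨i, hi, hi'⟩ := h
  change Fin (0 + 2) at i
  fin_cases i
  · exact Or.inl ⟨hi, hi'⟩
  · refine Or.inr ⟨hi, ?_⟩
    have e : (digon u v huv h1 h2).vert (((1 : Fin 2) + 1 : Fin 2)) = u := rfl
    exact e.symm.trans hi'

/-- the version with the gain from vertices with many opposite pairs and many non-neighbours -/
def StDig2 : Prop := ∀ ε : ℝ, 0 < ε → ∃ n0 : ℕ, ∀ (V : Type) [Fintype V] (A : V → V → Prop),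
  n0 ≤ Fintype.card V → (∀ v, ¬ A v v) → (∀ v, #{u | A u v} = #{u | A v u}) →
  ∃ (N : ℕ) (C : Fin N → DiCycle A), ArcDisjoint C ∧
    (∑ v, dO A v ^ 2) / (2 * (Fintype.card V : ℝ)) +
      (∑ v, ((#{u | A v u ∧ A u v} : ℕ) : ℝ) * ((#{u | ¬ A v u ∧ ¬ A u v} : ℕ) : ℝ)) /
        (2 * (Fintype.card V : ℝ)) - ε * (Fintype.card V : ℝ) ^ 2 ≤ (N : ℝ)

theorem t_DIG2 (h : StAsy) : StDig2 := by
  intro ε hε
  obtain ⟨n0, hn0⟩ := h ε hε
  refine ⟨n0 + 1, fun V _ A hn hloop hbal => ?_⟩
  obtain ⟨A', hA'⟩ : ∃ A' : V → V → Prop, ∀ u v, A' u v ↔ A u v ∧ ¬ A v u :=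
    ⟨fun u v => A u v ∧ ¬ A v u, fun _ _ => Iff.rfl⟩
  -- numbers of neighbours
  set g : V → ℕ := fun v => #{u | A v u ∧ A u v} with hg
  have hout : ∀ v, #{u | A v u} = g v + #{u | A' v u} := by
    intro v
    rw [hg, ← Finset.card_filter_add_card_filter_not (s := ({u | A v u} : Finset V)) (fun u => A u v)]
    congr 2
    · ext u; simp
    · ext u; simp [hA']
  have hin : ∀ v, #{u | A u v} = g v + #{u | A' u v} := by
    intro v
    rw [hg, ← Finset.card_filter_add_card_filter_not (s := ({u | A u v} : Finset V)) (fun u => A v u)]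
    congr 2
    · ext u; simp [and_comm]
    · ext u; simp [hA']
  have hbal' : ∀ v, #{u | A' u v} = #{u | A' v u} := by
    intro v
    have := hbal v
    rw [hout v, hin v] at this
    omega
  obtain ⟨N, C, hC, hN⟩ := hn0 V A' (by omega)
    (fun u v huv hvu => ((hA' u v).mp huv).2 ((hA' v u).mp hvu).1) hbal'
  -- the digons
  have e := Fintype.equivFin V
  let ι : Type := {p : V × V // (A p.1 p.2 ∧ A p.2 p.1) ∧ e p.1 < e p.2}
  have hne : ∀ p : ι, p.1.1 ≠ p.1.2 := fun p hp => by
    have := p.2.2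
    rw [hp] at this
    exact lt_irrefl _ this
  let cyc : Fin N ⊕ ι → DiCycle A := fun s =>
    match s with
    | Sum.inl i => lift (fun u v huv => ((hA' u v).mp huv).1) (C i)
    | Sum.inr p => digon p.1.1 p.1.2 (hne p) p.2.1.1 p.2.1.2
  have hdis : ∀ s t : Fin N ⊕ ι, s ≠ t → ∀ u v, (cyc s).Uses u v → ¬ (cyc t).Uses u v := by
    have huse : ∀ (i : Fin N) (u v : V), (cyc (Sum.inl i)).Uses u v → (C i).Uses u v :=
      fun i u v h => h
    have hA'use : ∀ (i : Fin N) (u v : V), (C i).Uses u v → A' u v := by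
      rintro i u v ⟨k, rfl, rfl⟩
      exact (C i).adj k
    have hdig : ∀ (p : ι) (u v : V), (cyc (Sum.inr p)).Uses u v →
        (p.1.1 = u ∧ p.1.2 = v) ∨ (p.1.2 = u ∧ p.1.1 = v) := fun p u v h =>
      digon_uses _ _ _ _ _ u v h
    have hdigA : ∀ (p : ι) (u v : V), (cyc (Sum.inr p)).Uses u v → A u v ∧ A v u := by
      intro p u v h
      rcases hdig p u v h with ⟨rfl, rfl⟩ | ⟨rfl, rfl⟩
      · exact p.2.1
      · exact ⟨p.2.1.2, p.2.1.1⟩
    rintro (i | p) (j | q) hst u v h1 h2
    · exact hC i j (fun hij => hst (by rw [hij])) u v (huse i u v h1) (huse j u v h2)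
    · exact ((hA' u v).mp (hA'use i u v (huse i u v h1))).2 (hdigA q u v h2).2
    · exact ((hA' u v).mp (hA'use j u v (huse j u v h2))).2 (hdigA p u v h1).2
    · apply hst
      have hp := p.2.2
      have hq := q.2.2
      rcases hdig p u v h1 with ⟨a1, a2⟩ | ⟨a1, a2⟩ <;> rcases hdig q u v h2 with ⟨b1, b2⟩ | ⟨b1, b2⟩
      · congr 1
        exact Subtype.ext (Prod.ext (a1.trans b1.symm) (a2.trans b2.symm))
      · exfalso
        rw [a1, a2] at hp
        rw [b1, b2] at hq
        exact lt_asymm hp hq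
      · exfalso
        rw [a1, a2] at hp
        rw [b1, b2] at hq
        exact lt_asymm hp hq
      · congr 1
        exact Subtype.ext (Prod.ext (a2.trans b2.symm) (a1.trans b1.symm))
  -- number of digons
  have hcount : ∑ v, g v = 2 * Fintype.card ι := by
    have e1 : ∑ v, g v = #{p : V × V | A p.1 p.2 ∧ A p.2 p.1} := by
      rw [Finset.card_filter, Fintype.sum_prod_type]
      apply Finset.sum_congr rfl
      intro v _
      show #{u | A v u ∧ A u v} = _
      rw [Finset.card_filter]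
    have e2 : Fintype.card ι = #{p : V × V | (A p.1 p.2 ∧ A p.2 p.1) ∧ e p.1 < e p.2} :=
      Fintype.card_subtype _
    have e3 : #{p : V × V | (A p.1 p.2 ∧ A p.2 p.1) ∧ ¬ e p.1 < e p.2} =
        #{p : V × V | (A p.1 p.2 ∧ A p.2 p.1) ∧ e p.1 < e p.2} := by
      refine Finset.card_bij' (fun p _ => p.swap) (fun p _ => p.swap) ?_ ?_ ?_ ?_
      · intro p hp
        simp only [Finset.mem_filter, Finset.mem_univ, true_and, Prod.fst_swap, Prod.snd_swap] at hp ⊢
        refine ⟨hp.1.symm, lt_of_le_of_ne (not_lt.mp hp.2) ?_⟩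
        intro he
        have := e.injective he
        rw [this] at hp
        exact hloop _ hp.1.1
      · intro p hp
        simp only [Finset.mem_filter, Finset.mem_univ, true_and, Prod.fst_swap, Prod.snd_swap] at hp ⊢
        exact ⟨hp.1.symm, not_lt.mpr hp.2.le⟩
      · intro p _; simp
      · intro p _; simp
    rw [e1, ← Finset.card_filter_add_card_filter_not
      (s := ({p : V × V | A p.1 p.2 ∧ A p.2 p.1} : Finset (V × V))) (fun p => e p.1 < e p.2)]
    rw [Finset.filter_filter, Finset.filter_filter, e3, e2]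
    ring
  let eq := Fintype.equivFin (Fin N ⊕ ι)
  refine ⟨Fintype.card (Fin N ⊕ ι), fun i => cyc (eq.symm i), ?_, ?_⟩
  · intro i j hij u v
    exact hdis _ _ (fun h => hij (eq.symm.injective h)) u v
  · -- the inequality
    have hn1 : 0 < (Fintype.card V : ℝ) := by
      have : 0 < Fintype.card V := by omega
      exact_mod_cast this
    have hcard : ((Fintype.card (Fin N ⊕ ι) : ℕ) : ℝ) = (N : ℝ) + (∑ v, (g v : ℝ)) / 2 := by
      have h2 : (∑ v, (g v : ℝ)) = 2 * (Fintype.card ι : ℝ) := by exact_mod_cast hcount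
      rw [Fintype.card_sum, Fintype.card_fin, h2]
      push_cast
      ring
    rw [hcard]
    have hterm : ∀ v, dO A v ^ 2 + (g v : ℝ) * ((#{u | ¬ A v u ∧ ¬ A u v} : ℕ) : ℝ) ≤
        dO A' v ^ 2 + (g v : ℝ) * Fintype.card V := by
      intro v
      have h1 : dO A v = g v + dO A' v := by
        unfold dO
        exact_mod_cast hout v
      have h3 : g v + 2 * #{u | A' v u} + #{u | ¬ A v u ∧ ¬ A u v} ≤ Fintype.card V := by
        have hd1 : Disjoint ({u | A v u ∧ A u v} : Finset V) ({u | A' v u} : Finset V) := by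
          rw [Finset.disjoint_left]
          intro u hu hu'
          simp only [Finset.mem_filter, Finset.mem_univ, true_and, hA'] at hu hu'
          exact hu'.2 hu.2
        have hd2 : Disjoint (({u | A v u ∧ A u v} : Finset V) ∪ ({u | A' v u} : Finset V))
            ({u | A' u v} : Finset V) := by
          rw [Finset.disjoint_left]
          intro u hu hu'
          simp only [Finset.mem_union, Finset.mem_filter, Finset.mem_univ, true_and, hA'] at hu hu'
          tauto
        have hd3 : Disjoint ((({u | A v u ∧ A u v} : Finset V) ∪ ({u | A' v u} : Finset V)) ∪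
            ({u | A' u v} : Finset V)) ({u | ¬ A v u ∧ ¬ A u v} : Finset V) := by
          rw [Finset.disjoint_left]
          intro u hu hu'
          simp only [Finset.mem_union, Finset.mem_filter, Finset.mem_univ, true_and, hA'] at hu hu'
          tauto
        have h4 := Finset.card_le_univ (((({u | A v u ∧ A u v} : Finset V) ∪
          ({u | A' v u} : Finset V)) ∪ ({u | A' u v} : Finset V)) ∪
            ({u | ¬ A v u ∧ ¬ A u v} : Finset V))
        rw [Finset.card_union_of_disjoint hd3, Finset.card_union_of_disjoint hd2,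
          Finset.card_union_of_disjoint hd1, hbal' v] at h4
        have h5 : g v = #{u | A v u ∧ A u v} := rfl
        omega
      have h3' : (g v : ℝ) + 2 * dO A' v + ((#{u | ¬ A v u ∧ ¬ A u v} : ℕ) : ℝ) ≤
          Fintype.card V := by
        unfold dO
        exact_mod_cast h3
      rw [h1]
      have hg0 : (0 : ℝ) ≤ g v := Nat.cast_nonneg _
      nlinarith
    have hsum : ∑ v, dO A v ^ 2 + ∑ v, (g v : ℝ) * ((#{u | ¬ A v u ∧ ¬ A u v} : ℕ) : ℝ) ≤
        ∑ v, dO A' v ^ 2 + (∑ v, (g v : ℝ)) * Fintype.card V := by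
      rw [Finset.sum_mul, ← Finset.sum_add_distrib, ← Finset.sum_add_distrib]
      exact Finset.sum_le_sum fun v _ => hterm v
    have hdiv : (∑ v, dO A v ^ 2) / (2 * (Fintype.card V : ℝ)) +
        (∑ v, (g v : ℝ) * ((#{u | ¬ A v u ∧ ¬ A u v} : ℕ) : ℝ)) / (2 * (Fintype.card V : ℝ)) ≤
        (∑ v, dO A' v ^ 2) / (2 * (Fintype.card V : ℝ)) + (∑ v, (g v : ℝ)) / 2 := by
      rw [← add_div, div_add' _ _ _ (by positivity)]
      rw [div_le_div_iff_of_pos_right (by positivity)]
      refine hsum.trans (le_of_eq ?_)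
      ring
    have hgg : (∑ v, ((#{u | A v u ∧ A u v} : ℕ) : ℝ) * ((#{u | ¬ A v u ∧ ¬ A u v} : ℕ) : ℝ)) =
        ∑ v, (g v : ℝ) * ((#{u | ¬ A v u ∧ ¬ A u v} : ℕ) : ℝ) := rfl
    rw [hgg]
    linarith

end Pool.Agent.Run7.h292.BL.D2
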