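import Pool.Agent.Run7.h292.BL.FRAC
import Pool.Agent.H248.Nib

/-!
# ASY: integral packings of directed cycles in Eulerian oriented graphs
-/

set_option autoImplicit false

namespace Pool.Agent.Run7.h292.BL

open Finset Classical
open Pool.Agent.Results.MP_2634a8_co.Fractional

section
variable {V : Type}

/-- the arcs of a directed cycle -/
noncomputable def arcs {A : V → V → Prop} (C : DiCycle A) : Finset (V × V) :=
  univ.image (fun i => (C.vert i, C.vert (i + 1)))

theorem mem_arcs {A : V → V → Prop} (C : DiCycle A) (a : V × V) :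
    a ∈ arcs C ↔ C.Uses a.1 a.2 := by
  unfold arcs
  rw [mem_image]
  constructor
  · rintro ⟨i, _, rfl⟩
    exact ⟨i, rfl, rfl⟩
  · rintro ⟨i, h1, h2⟩
    exact ⟨i, mem_univ _, Prod.ext h1 h2⟩

/-- a cycle of the sampled digraph as a cycle of the digraph -/
def liftC {A : V → V → Prop} {m : ℕ} {φ : Fin m → V} (hφ : Function.Injective φ)
    (c : DiCycle (pull A φ)) : DiCycle A where
  len := c.len
  vert := fun i => φ (c.vert i)
  inj := hφ.comp c.inj
  adj := c.adj

theorem load_phi {A : V → V → Prop} {m : ℕ} {φ : Fin m → V} (hφ : Function.Injective φ)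
    (F : FracPacking (pull A φ)) (x y : V) :
    ∑ j, (if (x, y) ∈ arcs (liftC hφ (F.cyc j)) then F.w j else 0) ≤
      if (∃ i, φ i = x) ∧ (∃ i, φ i = y) then (1 : ℝ) else 0 := by
  split_ifs with h
  · obtain ⟨⟨a, rfl⟩, b, rfl⟩ := h
    have h1 : ∀ j, (φ a, φ b) ∈ arcs (liftC hφ (F.cyc j)) ↔ (F.cyc j).Uses a b := by
      intro j
      rw [mem_arcs]
      constructor
      · rintro ⟨i, h1, h2⟩
        exact ⟨i, hφ h1, hφ h2⟩
      · rintro ⟨i, h1, h2⟩
        exact ⟨i, congrArg φ h1, congrArg φ h2⟩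
    simp only [h1]
    by_cases hab : pull A φ a b
    · rw [← sum_filter]
      exact F.load a b hab
    · rw [sum_eq_zero]
      · exact zero_le_one
      · intro j _
        rw [if_neg]
        rintro ⟨i, rfl, rfl⟩
        exact hab ((F.cyc j).adj i)
  · rw [sum_eq_zero]
    intro j _
    rw [if_neg]
    intro hj
    rw [mem_arcs] at hj
    obtain ⟨i, h1, h2⟩ := hj
    exact h ⟨⟨_, h1⟩, ⟨_, h2⟩⟩

theorem coload_phi {A : V → V → Prop} {m : ℕ} {φ : Fin m → V} (hφ : Function.Injective φ)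
    (F : FracPacking (pull A φ)) (x y x' y' z : V) (hz : z = x' ∨ z = y') :
    ∑ j, (if (x, y) ∈ arcs (liftC hφ (F.cyc j)) ∧ (x', y') ∈ arcs (liftC hφ (F.cyc j))
      then F.w j else 0) ≤
      if (∃ i, φ i = x) ∧ (∃ i, φ i = y) ∧ (∃ i, φ i = z) then (1 : ℝ) else 0 := by
  split_ifs with h
  · have h1 := load_phi hφ F x y
    rw [if_pos ⟨h.1, h.2.1⟩] at h1
    refine le_trans (sum_le_sum fun j _ => ?_) h1
    by_cases h2 : (x, y) ∈ arcs (liftC hφ (F.cyc j))
    · rw [if_pos h2]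
      split_ifs
      · exact le_rfl
      · exact F.nonneg j
    · rw [if_neg h2, if_neg (fun h3 => h2 h3.1)]
  · rw [sum_eq_zero]
    intro j _
    rw [if_neg]
    rintro ⟨hj, hj'⟩
    rw [mem_arcs] at hj hj'
    obtain ⟨i, h1, h2⟩ := hj
    obtain ⟨i', h3, h4⟩ := hj'
    refine h ⟨⟨_, h1⟩, ⟨_, h2⟩, ?_⟩
    rcases hz with rfl | rfl
    · exact ⟨_, h3⟩
    · exact ⟨_, h4⟩

theorem sum_inj {m : ℕ} [Fintype V] (g : (Fin m → V) → ℝ) :
    ∑ φ : {φ : Fin m → V // Function.Injective φ}, g φ.1 =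
      ∑ φ : Fin m → V with Function.Injective φ, g φ :=
  (Finset.sum_subtype (univ.filter fun φ : Fin m → V => Function.Injective φ) (by simp) g).symm

theorem sum_sub_le {m : ℕ} [Fintype V] (P : (Fin m → V) → Prop) [DecidablePred P] :
    ∑ φ : {φ : Fin m → V // Function.Injective φ}, (if P φ.1 then (1 : ℝ) else 0) ≤
      ((#{φ : Fin m → V | P φ} : ℕ) : ℝ) := by
  rw [sum_inj (fun φ => if P φ then (1 : ℝ) else 0), ← sum_boole]
  exact sum_le_sum_of_subset_of_nonneg (filter_subset _ _)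
    fun φ _ _ => by split_ifs <;> norm_num

theorem w_le_one {A : V → V → Prop} (F : FracPacking A) (j : Fin F.num) : F.w j ≤ 1 := by
  have h1 := F.load _ _ ((F.cyc j).adj 0)
  refine le_trans ?_ h1
  refine single_le_sum (f := fun j => F.w j) (fun i _ => F.nonneg i) ?_
  rw [mem_filter]
  exact ⟨mem_univ _, 0, rfl, rfl⟩

theorem arcs_nonempty {A : V → V → Prop} (C : DiCycle A) : (arcs C).Nonempty :=
  ⟨_, mem_image_of_mem _ (mem_univ (0 : Fin (C.len + 2)))⟩

theorem arcs_card {A : V → V → Prop} (C : DiCycle A) : (arcs C).card ≤ C.len + 2 := by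
  unfold arcs
  refine card_image_le.trans ?_
  simp

theorem len_le {m : ℕ} {B : Fin m → Fin m → Prop} (C : DiCycle B) : C.len + 2 ≤ m := by
  have := Fintype.card_le_of_injective C.vert C.inj
  simpa using this

end

/-- The averaging argument: a spread fractional packing, and then the nibble. -/
theorem main {V : Type} [Fintype V] [Nonempty V] (hmom1 : StMom1) (hmom2 : StMom2) (hcnt : StCnt)
    (A : V → V → Prop) (hA : ∀ u v, A u v → ¬ A v u) (heul : ∀ v, #{u | A u v} = #{u | A v u})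
    (m : ℕ) (hm : 3 ≤ m) (θ κ : ℝ)
    (hnib : ∀ (ι α : Type) [Fintype ι] [DecidableEq ι] [DecidableEq α]
      (B : ι → Finset α) (w : ι → ℝ),
      (∀ e, 0 ≤ w e) → (∀ e, (B e).Nonempty) → (∀ e, (B e).card ≤ m) →
      (∀ v, ∑ e ∈ univ.filter (fun e => v ∈ B e), w e ≤ 1) →
      (∀ u v, u ≠ v → ∑ e ∈ univ.filter (fun e => u ∈ B e ∧ v ∈ B e), w e ≤ κ) →
      (∀ e, w e ≤ κ) →
      ∃ M : Finset ι, (∀ e ∈ M, ∀ f ∈ M, e ≠ f → Disjoint (B e) (B f)) ∧ (∀ e ∈ M, 0 < w e) ∧
        (1 - θ) * ∑ e, w e ≤ (M.card : ℝ))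
    (hκ1 : (m : ℝ) ^ 3 / (m * (m - 1) * Fintype.card V) ≤ κ) (hθ1 : θ ≤ 1) :
    ∃ (N : ℕ) (C : Fin N → DiCycle A), ArcDisjoint C ∧
      (1 - θ) * ((m - 2) / m * ((∑ v, dO A v ^ 2) / (2 * (Fintype.card V : ℝ)))
        - Fintype.card V * (m : ℝ) ^ 3 / (2 * (m - 1))
        - (Fintype.card V : ℝ) ^ 2 * Real.sqrt m / (m - 1)) ≤ (N : ℝ) := by
  have hloop : ∀ v, ¬ A v v := fun v h => hA v v h h
  have hn : (0 : ℝ) < Fintype.card V := by exact_mod_cast Fintype.card_pos
  set n : ℝ := (Fintype.card V : ℝ) with hndef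
  have hn1 : (1 : ℝ) ≤ n := by
    have : 1 ≤ Fintype.card V := Fintype.card_pos
    rw [hndef]; exact_mod_cast this
  have hm3 : (3 : ℝ) ≤ m := by exact_mod_cast hm
  have hm0 : (0 : ℝ) < m := by linarith
  have hm1 : (0 : ℝ) < (m : ℝ) - 1 := by linarith
  have : Nonempty (Fin m) := ⟨⟨0, by omega⟩⟩
  have hF : ∀ φ : Fin m → V, ∃ F : FracPacking (pull A φ),
      (∑ x, dO (pull A φ) x ^ 2) / (2 * (m : ℝ)) -
        ∑ x, |dO (pull A φ) x - dI (pull A φ) x| ≤ F.total := by
    intro φ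
    have := t_FRAC (Fin m) (pull A φ) (fun i => hloop _)
    rwa [Fintype.card_fin] at this
  choose F hFt using hF
  obtain ⟨hc2, hc3, hci⟩ := hcnt V m (by omega)
  set s : ℝ := n ^ 2 / (m * (m - 1) * n ^ m) with hs
  have hs0 : 0 < s := by positivity
  let ι : Type := Σ φ : {φ : Fin m → V // Function.Injective φ}, Fin (F φ.1).num
  let B : ι → Finset (V × V) := fun e => arcs (liftC e.1.2 ((F e.1.1).cyc e.2))
  let w : ι → ℝ := fun e => s * (F e.1.1).w e.2
  have hnotA : ∀ (e : ι) (a : V × V), a ∈ B e → A a.1 a.2 := by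
    intro e a ha
    have := (mem_arcs _ _).1 ha
    obtain ⟨i, h1, h2⟩ := this
    rw [← h1, ← h2]
    exact (liftC e.1.2 ((F e.1.1).cyc e.2)).adj i
  have hload : ∀ v, ∑ e ∈ univ.filter (fun e => v ∈ B e), w e ≤ 1 := by
    rintro ⟨x, y⟩
    by_cases hxy : A x y
    · have hne : x ≠ y := fun h => hloop y (h ▸ hxy)
      rw [sum_filter]
      calc ∑ e : ι, (if (x, y) ∈ B e then w e else 0)
          = ∑ φ : {φ : Fin m → V // Function.Injective φ}, s * ∑ j : Fin (F φ.1).num,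
            (if (x, y) ∈ arcs (liftC φ.2 ((F φ.1).cyc j)) then (F φ.1).w j else 0) := by
            rw [Fintype.sum_sigma]
            refine sum_congr rfl fun φ _ => ?_
            rw [mul_sum]
            refine sum_congr rfl fun j _ => ?_
            show (if (x, y) ∈ arcs (liftC φ.2 ((F φ.1).cyc j)) then s * (F φ.1).w j else 0) = _
            split_ifs <;> simp
        _ ≤ ∑ φ : {φ : Fin m → V // Function.Injective φ},
            s * (if (∃ i, φ.1 i = x) ∧ (∃ i, φ.1 i = y) then (1 : ℝ) else 0) :=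
            sum_le_sum fun φ _ => mul_le_mul_of_nonneg_left (load_phi φ.2 (F φ.1) x y) hs0.le
        _ ≤ s * ((#{φ : Fin m → V | (∃ i, φ i = x) ∧ ∃ i, φ i = y} : ℕ) : ℝ) := by
            rw [← mul_sum]
            exact mul_le_mul_of_nonneg_left
              (sum_sub_le (fun φ => (∃ i, φ i = x) ∧ ∃ i, φ i = y)) hs0.le
        _ ≤ 1 := by
            have h1 := hc2 x y hne
            rw [hs, div_mul_eq_mul_div, div_le_one (by positivity)]
            exact h1
    · rw [filter_false_of_mem (fun e _ h => hxy (hnotA e _ h)), sum_empty]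
      exact zero_le_one
  have hs3 : s * (m ^ 3 * n ^ m / n ^ 3) = (m : ℝ) ^ 3 / (m * (m - 1) * n) := by
    rw [hs]
    field_simp
  have hco : ∀ u v, u ≠ v → ∑ e ∈ univ.filter (fun e => u ∈ B e ∧ v ∈ B e), w e ≤ κ := by
    rintro ⟨x, y⟩ ⟨x', y'⟩ huv
    have hκ0 : 0 ≤ κ := le_trans (by positivity) hκ1
    by_cases hxy : A x y ∧ A x' y'
    · obtain ⟨hxy, hxy'⟩ := hxy
      have hne : x ≠ y := fun h => hloop y (h ▸ hxy)
      have hne' : x' ≠ y' := fun h => hloop y' (h ▸ hxy')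
      obtain ⟨z, hz, hzx, hzy⟩ : ∃ z, (z = x' ∨ z = y') ∧ x ≠ z ∧ y ≠ z := by
        by_contra hcon
        push Not at hcon
        have h1 := hcon x' (Or.inl rfl)
        have h2 := hcon y' (Or.inr rfl)
        by_cases h3 : x = x'
        · by_cases h4 : x = y'
          · exact hne' (h3.symm.trans h4)
          · have h5 := h2 h4
            exact huv (by rw [h3, h5])
        · have h4 := h1 h3
          by_cases h5 : x = y'
          · subst h4; subst h5
            exact hA _ _ hxy hxy'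
          · have h6 := h2 h5
            exact hne' (h4.symm.trans h6)
      rw [sum_filter]
      calc ∑ e : ι, (if (x, y) ∈ B e ∧ (x', y') ∈ B e then w e else 0)
          = ∑ φ : {φ : Fin m → V // Function.Injective φ}, s * ∑ j : Fin (F φ.1).num,
            (if (x, y) ∈ arcs (liftC φ.2 ((F φ.1).cyc j)) ∧
              (x', y') ∈ arcs (liftC φ.2 ((F φ.1).cyc j)) then (F φ.1).w j else 0) := by
            rw [Fintype.sum_sigma]
            refine sum_congr rfl fun φ _ => ?_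
            rw [mul_sum]
            refine sum_congr rfl fun j _ => ?_
            show (if (x, y) ∈ arcs (liftC φ.2 ((F φ.1).cyc j)) ∧
              (x', y') ∈ arcs (liftC φ.2 ((F φ.1).cyc j)) then s * (F φ.1).w j else 0) = _
            split_ifs <;> simp
        _ ≤ ∑ φ : {φ : Fin m → V // Function.Injective φ},
            s * (if (∃ i, φ.1 i = x) ∧ (∃ i, φ.1 i = y) ∧ (∃ i, φ.1 i = z)
              then (1 : ℝ) else 0) :=
            sum_le_sum fun φ _ =>
              mul_le_mul_of_nonneg_left (coload_phi φ.2 (F φ.1) x y x' y' z hz) hs0.le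
        _ ≤ s * ((#{φ : Fin m → V | (∃ i, φ i = x) ∧ (∃ i, φ i = y) ∧ ∃ i, φ i = z} : ℕ) : ℝ) := by
            rw [← mul_sum]
            exact mul_le_mul_of_nonneg_left
              (sum_sub_le (fun φ => (∃ i, φ i = x) ∧ (∃ i, φ i = y) ∧ ∃ i, φ i = z)) hs0.le
        _ ≤ s * (m ^ 3 * n ^ m / n ^ 3) := by
            refine mul_le_mul_of_nonneg_left ?_ hs0.le
            rw [le_div_iff₀ (by positivity), mul_comm]
            exact hc3 x y z hne hzx hzy
        _ ≤ κ := by rw [hs3]; exact hκ1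
    · rw [filter_false_of_mem, sum_empty]
      · exact hκ0
      · intro e _ h
        exact hxy ⟨hnotA e _ h.1, hnotA e _ h.2⟩
  have hwk : ∀ e, w e ≤ κ := by
    intro e
    refine le_trans ?_ hκ1
    calc w e = s * (F e.1.1).w e.2 := rfl
      _ ≤ s * 1 := mul_le_mul_of_nonneg_left (w_le_one _ _) hs0.le
      _ ≤ s * (m ^ 3 * n ^ m / n ^ 3) := by
          refine mul_le_mul_of_nonneg_left ?_ hs0.le
          rw [le_div_iff₀ (by positivity), one_mul]
          have h1 : n ^ 3 ≤ n ^ m := pow_le_pow_right₀ hn1 hm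
          have h2 : (1 : ℝ) ≤ (m : ℝ) ^ 3 := one_le_pow₀ (by linarith)
          have h3 : 0 ≤ n ^ m := by positivity
          nlinarith
      _ = _ := hs3
  obtain ⟨M, hM1, -, hM3⟩ := hnib ι (V × V) B w
    (fun e => mul_nonneg hs0.le ((F e.1.1).nonneg e.2))
    (fun e => arcs_nonempty _)
    (fun e => (arcs_card _).trans (len_le ((F e.1.1).cyc e.2)))
    hload hco hwk
  refine ⟨M.card, fun i => liftC (M.equivFin.symm i).1.1.2 ((F (M.equivFin.symm i).1.1.1).cyc
    (M.equivFin.symm i).1.2), ?_, ?_⟩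
  · intro i j hij u v h1 h2
    have hne : (M.equivFin.symm i).1 ≠ (M.equivFin.symm j).1 := by
      intro h
      exact hij (M.equivFin.symm.injective (Subtype.ext h))
    have hd := hM1 _ (M.equivFin.symm i).2 _ (M.equivFin.symm j).2 hne
    exact (disjoint_left.1 hd) ((mem_arcs _ (u, v)).2 h1) ((mem_arcs _ (u, v)).2 h2)
  · refine le_trans (mul_le_mul_of_nonneg_left ?_ (by linarith)) hM3
    -- the total weight
    have hw : ∑ e : ι, w e = s * ∑ φ : Fin m → V with Function.Injective φ, (F φ).total := by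
      rw [← sum_inj (fun φ => (F φ).total), mul_sum, Fintype.sum_sigma]
      refine sum_congr rfl fun φ _ => ?_
      unfold FracPacking.total
      rw [mul_sum]
    set q : (Fin m → V) → ℝ := fun φ => (∑ x, dO (pull A φ) x ^ 2) / (2 * (m : ℝ)) with hq
    set er : (Fin m → V) → ℝ := fun φ => ∑ x, |dO (pull A φ) x - dI (pull A φ) x| with her
    have her0 : ∀ φ, 0 ≤ er φ := fun φ => sum_nonneg fun x _ => abs_nonneg _
    have hq1 : ∀ φ, q φ ≤ (m : ℝ) ^ 2 / 2 := by
      intro φ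
      have h1 : ∀ x, dO (pull A φ) x ^ 2 ≤ (m : ℝ) ^ 2 := by
        intro x
        have h2 : dO (pull A φ) x ≤ m := by
          unfold dO
          have : #{u | pull A φ x u} ≤ m := (card_filter_le _ _).trans (by simp)
          exact_mod_cast this
        have h3 : 0 ≤ dO (pull A φ) x := Nat.cast_nonneg _
        nlinarith
      have h2 : ∑ x, dO (pull A φ) x ^ 2 ≤ m * (m : ℝ) ^ 2 := by
        calc _ ≤ ∑ x : Fin m, (m : ℝ) ^ 2 := sum_le_sum fun x _ => h1 x
          _ = _ := by simp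
      rw [hq]
      show (∑ x, dO (pull A φ) x ^ 2) / (2 * (m : ℝ)) ≤ _
      rw [div_le_div_iff₀ (by positivity) (by norm_num)]
      nlinarith
    have h1 : ∑ φ : Fin m → V, q φ - ((m : ℝ) ^ 2 / 2) *
        ((#{φ : Fin m → V | ¬ Function.Injective φ} : ℕ) : ℝ) - ∑ φ : Fin m → V, er φ ≤
        ∑ φ : Fin m → V with Function.Injective φ, (F φ).total := by
      have h2 : ∑ φ : Fin m → V with Function.Injective φ, (q φ - er φ) ≤
          ∑ φ : Fin m → V with Function.Injective φ, (F φ).total :=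
        sum_le_sum fun φ _ => hFt φ
      have h3 : ∑ φ : Fin m → V, q φ = ∑ φ : Fin m → V with Function.Injective φ, q φ +
          ∑ φ : Fin m → V with ¬ Function.Injective φ, q φ :=
        (sum_filter_add_sum_filter_not univ _ _).symm
      have h4 : ∑ φ : Fin m → V with ¬ Function.Injective φ, q φ ≤ ((m : ℝ) ^ 2 / 2) *
          ((#{φ : Fin m → V | ¬ Function.Injective φ} : ℕ) : ℝ) := by
        calc _ ≤ ∑ φ : Fin m → V with ¬ Function.Injective φ, (m : ℝ) ^ 2 / 2 :=
              sum_le_sum fun φ _ => hq1 φ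
          _ = _ := by rw [sum_const, nsmul_eq_mul, mul_comm]
      have h5 : ∑ φ : Fin m → V with Function.Injective φ, er φ ≤ ∑ φ : Fin m → V, er φ :=
        sum_le_sum_of_subset_of_nonneg (filter_subset _ _) fun φ _ _ => her0 φ
      rw [sum_sub_distrib] at h2
      linarith
    have h2 := hmom1 V A m (by omega) hloop
    have h3 := hmom2 V A m hloop hA heul
    rw [← hndef] at h2 h3
    have hci' : ((#{φ : Fin m → V | ¬ Function.Injective φ} : ℕ) : ℝ) ≤
        (m : ℝ) ^ 2 * n ^ m / n := by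
      rw [le_div_iff₀ hn, mul_comm]
      exact hci
    set S : ℝ := ∑ v, dO A v ^ 2 with hS
    have h4 : (m - 1) * (m - 2) * n ^ m * S / (2 * n ^ 3) ≤ ∑ φ : Fin m → V, q φ := by
      rw [hq]
      show _ ≤ ∑ φ : Fin m → V, (∑ x, dO (pull A φ) x ^ 2) / (2 * (m : ℝ))
      rw [← sum_div, div_le_div_iff₀ (by positivity) (by positivity)]
      nlinarith
    rw [hw]
    calc _ = s * ((m - 1) * (m - 2) * n ^ m * S / (2 * n ^ 3) - (m : ℝ) ^ 2 / 2 *
          ((m : ℝ) ^ 2 * n ^ m / n) - m * Real.sqrt m * n ^ m) := by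
          rw [hs]
          field_simp
      _ ≤ s * ∑ φ : Fin m → V with Function.Injective φ, (F φ).total := by
          refine mul_le_mul_of_nonneg_left (le_trans ?_ h1) hs0.le
          have h5 : (m : ℝ) ^ 2 / 2 * ((#{φ : Fin m → V | ¬ Function.Injective φ} : ℕ) : ℝ) ≤
              (m : ℝ) ^ 2 / 2 * ((m : ℝ) ^ 2 * n ^ m / n) :=
            mul_le_mul_of_nonneg_left hci' (by positivity)
          linarith

theorem t_ASY (hmom1 : StMom1) (hmom2 : StMom2) (hcnt : StCnt) : StAsy := by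
  intro ε hε
  -- the sample size
  obtain ⟨m, hm⟩ := exists_nat_ge (64 / ε ^ 2 + 8 / ε + 3)
  have hm3 : (3 : ℝ) ≤ m := by
    have h1 : 0 < 64 / ε ^ 2 := by positivity
    have h2 : 0 < 8 / ε := by positivity
    linarith
  have hm3' : 3 ≤ m := by exact_mod_cast hm3
  have hmε : 4 ≤ ε * m := by
    have h1 : 0 < 64 / ε ^ 2 := by positivity
    have h2 : 8 / ε ≤ m := by linarith
    rw [div_le_iff₀ hε] at h2
    linarith
  have hmε2 : 64 ≤ ε ^ 2 * m := by
    have h1 : 0 < 8 / ε := by positivity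
    have h2 : 64 / ε ^ 2 ≤ m := by linarith
    rw [div_le_iff₀ (by positivity)] at h2
    linarith
  set θ : ℝ := min 1 (ε / 2) with hθ
  have hθ0 : 0 < θ := lt_min one_pos (by linarith)
  obtain ⟨κ, hκ, hnib⟩ := H248.Nib.nibble_T m θ hθ0
  obtain ⟨n0, hn0⟩ := exists_nat_ge ((m : ℝ) ^ 3 / (m * (m - 1)) / κ + 2 * (m : ℝ) ^ 3 / ε + 1)
  refine ⟨n0, ?_⟩
  intro V _ A hcard hA heul
  have hm0 : (0 : ℝ) < m := by linarith
  have hm1 : (0 : ℝ) < (m : ℝ) - 1 := by linarith
  have hnn : (m : ℝ) ^ 3 / (m * (m - 1)) / κ + 2 * (m : ℝ) ^ 3 / ε + 1 ≤ Fintype.card V :=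
    hn0.trans (by exact_mod_cast hcard)
  have hp1 : 0 < (m : ℝ) ^ 3 / (m * (m - 1)) / κ := by positivity
  have hp2 : 0 < 2 * (m : ℝ) ^ 3 / ε := by positivity
  have hn : (0 : ℝ) < Fintype.card V := by linarith
  have : Nonempty V := by
    rw [← Fintype.card_pos_iff]
    exact_mod_cast hn
  have hκ1 : (m : ℝ) ^ 3 / (m * (m - 1) * Fintype.card V) ≤ κ := by
    have h1 : (m : ℝ) ^ 3 / (m * (m - 1)) / κ ≤ Fintype.card V := by linarith
    rw [div_le_iff₀ hκ] at h1
    rw [← div_div, div_le_iff₀ hn]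
    exact h1.trans (mul_comm _ _).le
  obtain ⟨N, C, hC, hN⟩ := main hmom1 hmom2 hcnt A hA heul m hm3' θ κ
    (fun ι α _ _ _ B w h1 h2 h3 h4 h5 h6 => hnib ι α B w h1 h2 h3 h4 h5 h6) hκ1 (min_le_left _ _)
  refine ⟨N, C, hC, le_trans ?_ hN⟩
  set n : ℝ := (Fintype.card V : ℝ) with hndef
  set S : ℝ := ∑ v, dO A v ^ 2 with hS
  have hT : S / (2 * n) ≤ n ^ 2 / 2 := by
    have h1 : S ≤ n * n ^ 2 := by
      rw [hS]
      calc ∑ v, dO A v ^ 2 ≤ ∑ v : V, n ^ 2 := by
            refine sum_le_sum fun v _ => ?_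
            have h2 : dO A v ≤ n := by
              unfold dO
              have : #{u | A v u} ≤ Fintype.card V := card_le_univ _
              rw [hndef]
              exact_mod_cast this
            have h3 : 0 ≤ dO A v := Nat.cast_nonneg _
            nlinarith
        _ = n * n ^ 2 := by simp [hndef]
    rw [div_le_div_iff₀ (by positivity) (by norm_num)]
    nlinarith
  have hT0 : 0 ≤ S / (2 * n) := div_nonneg (sum_nonneg fun v _ => sq_nonneg _) (by positivity)
  set T : ℝ := S / (2 * n) with hTdef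
  set X : ℝ := (m - 2) / m * T - n * (m : ℝ) ^ 3 / (2 * (m - 1)) -
    n ^ 2 * Real.sqrt m / (m - 1) with hX
  have hsq : Real.sqrt m ^ 2 = m := Real.sq_sqrt hm0.le
  have hsq0 : 0 < Real.sqrt m := Real.sqrt_pos.2 hm0
  have e1 : n * (m : ℝ) ^ 3 / (2 * (m - 1)) ≤ ε / 4 * n ^ 2 := by
    have h1 : 2 * (m : ℝ) ^ 3 / ε ≤ n := by linarith
    rw [div_le_iff₀ hε] at h1
    rw [div_le_iff₀ (by positivity)]
    have h2 : (m : ℝ) ^ 3 ≤ n * ε / 2 := by linarith
    have h3 : n * (m : ℝ) ^ 3 ≤ n * (n * ε / 2) := mul_le_mul_of_nonneg_left h2 hn.le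
    have h4 : (1 : ℝ) ≤ m - 1 := by linarith
    have h5 : 0 ≤ ε * n ^ 2 := by positivity
    nlinarith
  have e2 : n ^ 2 * Real.sqrt m / (m - 1) ≤ ε / 4 * n ^ 2 := by
    rw [div_le_iff₀ hm1]
    have h1 : 8 ≤ ε * Real.sqrt m := by
      have h2 : (8 : ℝ) ^ 2 ≤ (ε * Real.sqrt m) ^ 2 := by
        rw [mul_pow, hsq]; linarith
      exact le_of_sq_le_sq h2 (by positivity)
    have h3 : Real.sqrt m ≤ ε / 4 * (m - 1) := by
      have h4 : 8 * Real.sqrt m ≤ ε * m := by
        calc 8 * Real.sqrt m ≤ ε * Real.sqrt m * Real.sqrt m :=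
              mul_le_mul_of_nonneg_right h1 hsq0.le
          _ = ε * m := by rw [mul_assoc, ← sq, hsq]
      nlinarith
    calc n ^ 2 * Real.sqrt m ≤ n ^ 2 * (ε / 4 * (m - 1)) :=
          mul_le_mul_of_nonneg_left h3 (by positivity)
      _ = _ := by ring
  have e3 : T - ε / 4 * n ^ 2 ≤ (m - 2) / m * T := by
    have h1 : (m - 2 : ℝ) / m * T = T - 2 / m * T := by field_simp
    rw [h1]
    have h2 : 2 / m * T ≤ 2 / m * (n ^ 2 / 2) := mul_le_mul_of_nonneg_left hT (by positivity)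
    have h3 : 2 / m * (n ^ 2 / 2) ≤ ε / 4 * n ^ 2 := by
      rw [div_mul_eq_mul_div, div_le_iff₀ hm0]
      have : 0 ≤ n ^ 2 := by positivity
      nlinarith
    linarith
  have hXT : X ≤ n ^ 2 / 2 := by
    have h1 : (m - 2 : ℝ) / m * T ≤ 1 * T := by
      refine mul_le_mul_of_nonneg_right ?_ hT0
      rw [div_le_one hm0]; linarith
    have h2 : 0 ≤ n * (m : ℝ) ^ 3 / (2 * (m - 1)) := by positivity
    have h3 : 0 ≤ n ^ 2 * Real.sqrt m / (m - 1) := by positivity
    rw [hX]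
    linarith
  have e4 : θ * X ≤ ε / 4 * n ^ 2 := by
    have h1 : θ ≤ ε / 2 := min_le_right _ _
    calc θ * X ≤ θ * (n ^ 2 / 2) := mul_le_mul_of_nonneg_left hXT hθ0.le
      _ ≤ ε / 2 * (n ^ 2 / 2) := mul_le_mul_of_nonneg_right h1 (by positivity)
      _ = _ := by ring
  have h5 : (1 - θ) * X = X - θ * X := by ring
  rw [h5]
  linarith

end Pool.Agent.Run7.h292.BL
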