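import Mathlib
import Pool.Agent.Results.MP_2634a8_co.Fractional

/-!
# Asymptotic packing of directed cycles and the interchange graph of tournaments: statements
-/

set_option autoImplicit false

namespace Pool.Agent.Run7.h292.BL

open Finset Classical
open Pool.Agent.Results.MP_2634a8_co.Fractional (DiCycle FracPacking)

/-- out-degree, as a real number -/
noncomputable def dO {V : Type} [Fintype V] (A : V → V → Prop) (v : V) : ℝ :=
  ((#{u | A v u} : ℕ) : ℝ)

/-- in-degree, as a real number -/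
noncomputable def dI {V : Type} [Fintype V] (A : V → V → Prop) (v : V) : ℝ :=
  ((#{u | A u v} : ℕ) : ℝ)

/-- the digraph on the sampled vertices -/
def pull {V : Type} (A : V → V → Prop) {m : ℕ} (φ : Fin m → V) : Fin m → Fin m → Prop :=
  fun i j => A (φ i) (φ j)

/-- FRAC: fractional packings of cycles in digraphs which are nearly Eulerian. -/
def StFrac : Prop := ∀ (V : Type) [Fintype V] [Nonempty V] (A : V → V → Prop), (∀ v, ¬ A v v) →
  ∃ F : FracPacking A,
    (∑ x, dO A x ^ 2) / (2 * (Fintype.card V : ℝ)) - ∑ x, |dO A x - dI A x| ≤ F.total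

/-- MOM1: second moment of the sampled out-degrees. -/
def StMom1 : Prop := ∀ (V : Type) [Fintype V] [Nonempty V] (A : V → V → Prop) (m : ℕ),
  2 ≤ m → (∀ v, ¬ A v v) →
  (m : ℝ) * (m - 1) * (m - 2) * (Fintype.card V : ℝ) ^ m * ∑ v, dO A v ^ 2 ≤
    (Fintype.card V : ℝ) ^ 3 * ∑ φ : Fin m → V, ∑ i, dO (pull A φ) i ^ 2

/-- MOM2: the sampled digraphs are nearly Eulerian. -/
def StMom2 : Prop := ∀ (V : Type) [Fintype V] [Nonempty V] (A : V → V → Prop) (m : ℕ),
  (∀ v, ¬ A v v) → (∀ u v, A u v → ¬ A v u) → (∀ v, #{u | A u v} = #{u | A v u}) →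
  ∑ φ : Fin m → V, ∑ i, |dO (pull A φ) i - dI (pull A φ) i| ≤
    (m : ℝ) * Real.sqrt m * (Fintype.card V : ℝ) ^ m

/-- CNT: counting maps which hit given vertices, and maps which are not injective. -/
def StCnt : Prop := ∀ (V : Type) [Fintype V] [Nonempty V] (m : ℕ), 2 ≤ m →
  (∀ u v : V, u ≠ v →
    (Fintype.card V : ℝ) ^ 2 * ((#{φ : Fin m → V | (∃ i, φ i = u) ∧ ∃ i, φ i = v} : ℕ) : ℝ) ≤
      (m : ℝ) * (m - 1) * (Fintype.card V : ℝ) ^ m) ∧
  (∀ u v w : V, u ≠ v → u ≠ w → v ≠ w →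
    (Fintype.card V : ℝ) ^ 3 *
      ((#{φ : Fin m → V | (∃ i, φ i = u) ∧ (∃ i, φ i = v) ∧ ∃ i, φ i = w} : ℕ) : ℝ) ≤
      (m : ℝ) ^ 3 * (Fintype.card V : ℝ) ^ m) ∧
  (Fintype.card V : ℝ) * ((#{φ : Fin m → V | ¬ Function.Injective φ} : ℕ) : ℝ) ≤
      (m : ℝ) ^ 2 * (Fintype.card V : ℝ) ^ m

/-- pairwise arc-disjoint -/
def ArcDisjoint {V : Type} {A : V → V → Prop} {N : ℕ} (C : Fin N → DiCycle A) : Prop :=
  ∀ i j, i ≠ j → ∀ u v, (C i).Uses u v → ¬ (C j).Uses u v

/-- ASY: packings of directed cycles in Eulerian oriented graphs, asymptotically. -/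
def StAsy : Prop := ∀ ε : ℝ, 0 < ε → ∃ n0 : ℕ, ∀ (V : Type) [Fintype V] (A : V → V → Prop),
  n0 ≤ Fintype.card V → (∀ u v, A u v → ¬ A v u) → (∀ v, #{u | A u v} = #{u | A v u}) →
  ∃ (N : ℕ) (C : Fin N → DiCycle A), ArcDisjoint C ∧
    (∑ v, dO A v ^ 2) / (2 * (Fintype.card V : ℝ)) - ε * (Fintype.card V : ℝ) ^ 2 ≤ (N : ℝ)

/-- DIG: the same for digraphs which may have pairs of opposite arcs. -/
def StDig : Prop := ∀ ε : ℝ, 0 < ε → ∃ n0 : ℕ, ∀ (V : Type) [Fintype V] (A : V → V → Prop),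
  n0 ≤ Fintype.card V → (∀ v, ¬ A v v) → (∀ v, #{u | A u v} = #{u | A v u}) →
  ∃ (N : ℕ) (C : Fin N → DiCycle A), ArcDisjoint C ∧
    (∑ v, dO A v ^ 2) / (2 * (Fintype.card V : ℝ)) - ε * (Fintype.card V : ℝ) ^ 2 ≤ (N : ℝ)

/-! ### Tournaments -/

/-- `T` is a tournament: `T u v` means that the arc between `u` and `v` goes from `u` to `v`. -/
def IsTour {V : Type} (T : V → V → Prop) : Prop :=
  (∀ v, ¬ T v v) ∧ (∀ u v, T u v → ¬ T v u) ∧ ∀ u v, u ≠ v → T u v ∨ T v u

/-- `T'` arises from `T` by reversing the three arcs of the directed cycle `a → b → c → a`. -/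
def Rev3 {V : Type} (T T' : V → V → Prop) : Prop :=
  ∃ a b c : V, T a b ∧ T b c ∧ T c a ∧
    ∀ u v, T' u v ↔
      if (u = a ∧ v = b) ∨ (u = b ∧ v = c) ∨ (u = c ∧ v = a) ∨
        (v = a ∧ u = b) ∨ (v = b ∧ u = c) ∨ (v = c ∧ u = a) then T v u else T u v

/-- `T'` can be reached from `T` by at most `k` reversals of directed `3`-cycles. -/
inductive Within {V : Type} : ℕ → (V → V → Prop) → (V → V → Prop) → Prop
  | refl (k : ℕ) (T : V → V → Prop) : Within k T T
  | step (k : ℕ) (T T' T'' : V → V → Prop) : Rev3 T T' → Within k T' T'' → Within (k + 1) T T''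

/-- the arcs of `T` which are reversed in `T'` -/
def diffArcs {V : Type} (T T' : V → V → Prop) : V → V → Prop := fun u v => T u v ∧ T' v u

/-- the tournament `T` with all arcs of the directed cycle `C` reversed -/
def revCycle {V : Type} {A : V → V → Prop} (T : V → V → Prop) (C : DiCycle A) : V → V → Prop :=
  fun u v => if C.Uses u v ∨ C.Uses v u then T v u else T u v

/-- CYC: a directed cycle of length `l + 2` in a tournament is reversed by `l` reversals of
directed `3`-cycles. -/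
def StCyc : Prop := ∀ (V : Type) (T : V → V → Prop), IsTour T →
  ∀ C : DiCycle T, Within C.len T (revCycle T C)

/-- DIST: packings of cycles bound the distance in the interchange graph. -/
def StDist : Prop := ∀ (V : Type) [Fintype V] (T T' : V → V → Prop), IsTour T → IsTour T' →
  (∀ v, #{u | T v u} = #{u | T' v u}) →
  ∀ (N : ℕ) (C : Fin N → DiCycle (diffArcs T T')), ArcDisjoint C →
    Within (#{a : V × V | diffArcs T T' a.1 a.2} - 2 * N) T T'

end Pool.Agent.Run7.h292.BL
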