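import Pool.Agent.Run7.h292.BL.Defs

/-!
# FRAC: fractional packings of directed cycles in nearly Eulerian digraphs
-/

set_option autoImplicit false

namespace Pool.Agent.Run7.h292.BL

open Finset Classical
open Pool.Agent.Results.MP_2634a8_co.Fractional

section
variable {V : Type} [Fintype V]

theorem global_near (A : V → V → Prop) (hloop : ∀ v, ¬ A v v)
    (D : V → V → ℝ) (htri : ∀ x y z, D x z ≤ D x y + D y z)
    (hanti : ∀ x y, 1 ≤ D x y + D y x) (h0 : ∀ x y, 0 ≤ D x y) (hle : ∀ x y, D x y ≤ 1) :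
    ∑ x, dO A x * (dO A x + 1) / 2 ≤
      (Fintype.card V : ℝ) * ∑ x, ∑ y with A x y, D x y +
        (Fintype.card V : ℝ) * ∑ x, |dO A x - dI A x| := by
  have h1 := sum_le_sum fun (x : V) (_ : x ∈ (univ : Finset V)) =>
    local_ineq D htri hanti x {u | A x u} (by simpa using hloop x)
  rw [sum_add_distrib, sum_add_distrib, ← mul_sum] at h1
  have h2 : ∑ x, ∑ y with A x y, ∑ z ∈ univ.erase y, D y z =
      ∑ y, dI A y * ∑ z ∈ univ.erase y, D y z := by
    have : ∑ x, ∑ y with A x y, ∑ z ∈ univ.erase y, D y z =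
        ∑ y, ∑ x with A x y, ∑ z ∈ univ.erase y, D y z := by
      simp only [sum_filter]
      exact sum_comm
    rw [this]
    refine sum_congr rfl fun y _ => ?_
    rw [sum_const, nsmul_eq_mul]
    rfl
  have hR0 : ∀ y, 0 ≤ ∑ z ∈ univ.erase y, D y z := fun y => sum_nonneg fun z _ => h0 y z
  have hR1 : ∀ y, ∑ z ∈ univ.erase y, D y z ≤ Fintype.card V := by
    intro y
    calc ∑ z ∈ univ.erase y, D y z ≤ ∑ z ∈ univ.erase y, (1 : ℝ) := sum_le_sum fun z _ => hle y z
      _ ≤ ∑ z ∈ (univ : Finset V), (1 : ℝ) :=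
          sum_le_sum_of_subset_of_nonneg (erase_subset _ _) fun _ _ _ => zero_le_one
      _ = Fintype.card V := by simp
  have h3 : ∑ y, dI A y * ∑ z ∈ univ.erase y, D y z - ∑ y, dO A y * ∑ z ∈ univ.erase y, D y z ≤
      (Fintype.card V : ℝ) * ∑ x, |dO A x - dI A x| := by
    rw [← sum_sub_distrib, mul_sum]
    refine sum_le_sum fun y _ => ?_
    rw [← sub_mul]
    calc (dI A y - dO A y) * ∑ z ∈ univ.erase y, D y z
        ≤ |dO A y - dI A y| * ∑ z ∈ univ.erase y, D y z := by
          refine mul_le_mul_of_nonneg_right ?_ (hR0 y)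
          rw [abs_sub_comm]
          exact le_abs_self _
      _ ≤ |dO A y - dI A y| * Fintype.card V := mul_le_mul_of_nonneg_left (hR1 y) (abs_nonneg _)
      _ = _ := mul_comm _ _
  have h4 : ∑ x, ((#{u | A x u} : ℕ) : ℝ) * ((#{u | A x u} : ℕ) + 1) / 2 =
    ∑ x, dO A x * (dO A x + 1) / 2 := rfl
  have h5 : ∑ x, ((#{u | A x u} : ℕ) : ℝ) * ∑ z ∈ univ.erase x, D x z =
    ∑ x, dO A x * ∑ z ∈ univ.erase x, D x z := rfl
  rw [h2, h4, h5] at h1
  linarith

theorem feedback_near (A : V → V → Prop) (hloop : ∀ v, ¬ A v v) (w : V → V → ℝ)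
    (hw : ∀ x y, 0 ≤ w x y)
    (hcyc : ∀ C : DiCycle A, 1 ≤ ∑ i, w (C.vert i) (C.vert (i + 1))) :
    ∑ x, dO A x * (dO A x + 1) / 2 ≤
      (Fintype.card V : ℝ) * ∑ x, ∑ y, w x y +
        (Fintype.card V : ℝ) * ∑ x, |dO A x - dI A x| := by
  have hcn := cap_nonneg A w hw
  have hdl := fun x y => Pool.Agent.Results.MP_2634a8_co.Fractional.dist_le (cap A w) hcn x y
  refine (global_near A hloop (Pool.Agent.Results.MP_2634a8_co.Fractional.dist (cap A w))
    (dist_tri _ hcn) (dist_anti _ ?_) ?_ ?_).trans ?_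
  · rintro x c ⟨m, p, hm, hp0, hpm, rfl⟩
    exact closed_ge A hloop w hw hcyc m p hm (hpm.trans hp0.symm)
  · intro x y
    exact le_csInf ⟨_, costs_mem _ x y⟩ (costs_nonneg _ hcn x y)
  · intro x y
    refine (hdl x y).trans ?_
    unfold cap
    split_ifs
    · exact min_le_right _ _
    · exact le_rfl
  · refine add_le_add_left (mul_le_mul_of_nonneg_left ?_ (Nat.cast_nonneg _)) _
    refine sum_le_sum fun x _ => ?_
    refine (sum_le_sum (g := fun y => w x y) fun y hy => ?_).trans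
      (sum_le_sum_of_subset_of_nonneg (filter_subset _ _) fun y _ _ => hw x y)
    rw [mem_filter] at hy
    refine (hdl x y).trans ?_
    unfold cap
    rw [if_pos hy.2]
    exact min_le_left _ _

end

theorem t_FRAC : StFrac := by
  intro V _ _ A hloop
  have hcard : (0 : ℝ) < Fintype.card V := by exact_mod_cast Fintype.card_pos
  set K : ℝ := (∑ x, dO A x ^ 2) / (2 * (Fintype.card V : ℝ)) - ∑ x, |dO A x - dI A x| with hK
  by_cases hK0 : 0 < K
  · obtain ⟨F, hF⟩ := exists_packing A K hK0 (fun w hw hcyc => by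
      have h1 := feedback_near A hloop w hw hcyc
      have h2 : (∑ x, dO A x ^ 2) / 2 ≤ ∑ x, dO A x * (dO A x + 1) / 2 := by
        rw [sum_div]
        refine sum_le_sum fun x _ => ?_
        have : 0 ≤ dO A x := Nat.cast_nonneg _
        nlinarith
      have h3 : (∑ x, dO A x ^ 2) / (2 * (Fintype.card V : ℝ)) ≤
          ∑ x, ∑ y, w x y + ∑ x, |dO A x - dI A x| := by
        rw [← div_div, div_le_iff₀ hcard]
        calc _ ≤ _ := h2.trans h1
          _ = _ := by ring
      rw [hK]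
      linarith)
    exact ⟨F, hF.ge⟩
  · refine ⟨emptyPacking A, ?_⟩
    have : (emptyPacking A).total = 0 := by
      show ∑ j : Fin 0, _ = (0 : ℝ)
      exact Fin.sum_univ_zero _
    rw [this]
    exact not_lt.1 hK0

end Pool.Agent.Run7.h292.BL
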